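import Mathlib
import Pool.Agent.Helper805_at.G9
import Pool.Agent.Helper805_at.H6

set_option autoImplicit false

namespace Pool.Agent.Results.MP_16de82_co.LightSubspaces

universe u

theorem col_ne_zero {F : Type u} [Field F] {n : ℕ} (M : Matrix (Fin n) (Fin n) F)
    (hM : M.det ≠ 0) (c : Fin n) : (fun r => M r c) ≠ 0 := by
  intro h
  exact hM (Matrix.det_eq_zero_of_column_eq_zero c (fun r => congrFun h r))

/-- In dimension at most two, columns of invertible matrices that are pairwise non-proportional are
linearly independent. -/
theorem gen_of_le_two {F : Type u} [Field F] {p n : ℕ} (hn : n ≤ 2)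
    (B : Fin p → Matrix (Fin n) (Fin n) F) (hB : ∀ i, (B i).det ≠ 0)
    (x : Fin n → Fin p × Fin n)
    (hx : ∀ i j, i ≠ j → ∀ t : F,
      (fun r => B (x i).1 r (x i).2) ≠ fun r => t * B (x j).1 r (x j).2) :
    LinearIndependent F (fun i => fun r => B (x i).1 r (x i).2) := by
  have h3 : n = 0 ∨ n = 1 ∨ n = 2 := by omega
  rcases h3 with h | h | h
  · subst h
    exact linearIndependent_empty_type
  · subst h
    rw [linearIndependent_unique_iff]
    exact col_ne_zero _ (hB _) _
  · subst h
    rw [Fintype.linearIndependent_iff]
    intro g hg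
    rw [Fin.sum_univ_two] at hg
    have key : ∀ s t : F, s • (fun r => B (x 0).1 r (x 0).2) + t • (fun r => B (x 1).1 r (x 1).2) = 0 →
        s = 0 ∧ t = 0 := ?_
    · have h := key (g 0) (g 1) hg
      intro i
      fin_cases i
      · exact h.1
      · exact h.2
    intro s t hst
    have h01 := hx 0 1 (by decide)
    have hv1 : (fun r => B (x 1).1 r (x 1).2) ≠ 0 := col_ne_zero _ (hB _) _
    by_cases hs : s = 0
    · refine ⟨hs, ?_⟩
      by_contra ht
      apply hv1
      funext r
      have := congrFun hst r
      simp only [hs, zero_smul, Pi.add_apply, Pi.smul_apply, smul_eq_mul, Pi.zero_apply, zero_add] at this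
      rcases mul_eq_zero.mp this with h | h
      · exact absurd h ht
      · exact h
    · exfalso
      apply h01 (-(t / s))
      funext r
      have := congrFun hst r
      simp only [Pi.add_apply, Pi.smul_apply, smul_eq_mul, Pi.zero_apply] at this
      field_simp
      linear_combination this

/-- The strong Alon-Tarsi basis property for `p` invertible `n × n` matrices over any field of
characteristic `p`, in each of the following cases:
* `n ≤ 2`;
* any `n` pairwise non-proportional columns are linearly independent;
* for every proper subspace `Z` of `F ^ n` either pairwise non-proportional columns in `Z` are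
  always linearly independent, or at most `p` of the `p n` columns lie in `Z`. -/
theorem result (F : Type u) [Field F] (p : ℕ) (hp : p.Prime) (hF : CharP F p) (n : ℕ)
    (B : Fin p → Matrix (Fin n) (Fin n) F) (hB : ∀ i, (B i).det ≠ 0)
    (hcase : n ≤ 2 ∨
      (∀ x : Fin n → Fin p × Fin n,
        (∀ i j, i ≠ j → ∀ t : F,
          (fun r => B (x i).1 r (x i).2) ≠ fun r => t * B (x j).1 r (x j).2) →
        LinearIndependent F (fun i => fun r => B (x i).1 r (x i).2)) ∨
      (∀ Z : Submodule F (Fin n → F), Z ≠ ⊤ →
        (∀ (m : ℕ) (x : Fin m → Fin p × Fin n), (∀ i, (fun r => B (x i).1 r (x i).2) ∈ Z) →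
          (∀ i j, i ≠ j → ∀ t : F,
            (fun r => B (x i).1 r (x i).2) ≠ fun r => t * B (x j).1 r (x j).2) →
          LinearIndependent F (fun i => fun r => B (x i).1 r (x i).2)) ∨
        {s : Fin p × Fin n | (fun r => B s.1 r s.2) ∈ Z}.ncard ≤ p)) :
    ∃ e : (Fin n ⊕ (Fin (p - 1) × Fin n)) ≃ (Fin p × Fin n),
      (Matrix.of fun (r k : Fin n) => B (e (Sum.inl k)).1 r (e (Sum.inl k)).2).det ≠ 0 ∧
      (Matrix.of fun (x y : Fin (p - 1) × Fin n) =>
        B (e (Sum.inr y)).1 x.2 (e (Sum.inr y)).2).permanent ≠ 0 := by
  rcases hcase with h | h | hlight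
  · exact Pool.Agent.Helper805_at.general_position F p hp n B hB
      (fun x hx => gen_of_le_two h B hB x hx)
  · exact Pool.Agent.Helper805_at.general_position F p hp n B hB h
  · refine Pool.Agent.Helper805_at.light_flats F p hp n B hB ?_
    intro Z hZ
    rcases hlight Z hZ with h | h
    · refine Or.inl fun m x hx hne => h m x hx fun i j hij t ht => hne i j hij ?_
      rw [Submodule.mem_span_singleton]
      exact ⟨t, by funext r; exact (congrFun ht r).symm⟩
    · exact Or.inr h

end Pool.Agent.Results.MP_16de82_co.LightSubspaces
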