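import Mathlib
import Pool.Agent.Helper805_at.H9

set_option autoImplicit false

namespace Pool.Agent.Results.MP_16de82_co.ThreeDimensions

universe u

/-- The strong Alon-Tarsi basis property for `p` invertible `3 × 3` matrices over any field of
characteristic `p`, unless some plane is heavy and evenly spread: for every proper subspace `Z` of
`F ^ 3` it is assumed that at most `p` of the `3 p` columns lie in `Z`, or that `Z` contains two
non-proportional columns `s`, `t` such that more than `p` columns are multiples of `s` or of `t`. -/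
theorem result (F : Type u) [Field F] (p : ℕ) (hp : p.Prime) (hF : CharP F p)
    (B : Fin p → Matrix (Fin 3) (Fin 3) F) (hB : ∀ i, (B i).det ≠ 0)
    (hl : ∀ Z : Submodule F (Fin 3 → F), Z ≠ ⊤ →
      {s : Fin p × Fin 3 | (fun r => B s.1 r s.2) ∈ Z}.ncard ≤ p ∨
      ∃ s t : Fin p × Fin 3, (fun r => B s.1 r s.2) ∈ Z ∧ (fun r => B t.1 r t.2) ∈ Z ∧
        (fun r => B s.1 r s.2) ∉ Submodule.span F {(fun r => B t.1 r t.2 : Fin 3 → F)} ∧
        p < {x : Fin p × Fin 3 | (fun r => B x.1 r x.2) ∈
              Submodule.span F {(fun r => B s.1 r s.2 : Fin 3 → F)}}.ncard +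
            {x : Fin p × Fin 3 | (fun r => B x.1 r x.2) ∈
              Submodule.span F {(fun r => B t.1 r t.2 : Fin 3 → F)}}.ncard) :
    ∃ e : (Fin 3 ⊕ (Fin (p - 1) × Fin 3)) ≃ (Fin p × Fin 3),
      (Matrix.of fun (r k : Fin 3) => B (e (Sum.inl k)).1 r (e (Sum.inl k)).2).det ≠ 0 ∧
      (Matrix.of fun (x y : Fin (p - 1) × Fin 3) =>
        B (e (Sum.inr y)).1 x.2 (e (Sum.inr y)).2).permanent ≠ 0 :=
  Pool.Agent.Helper805_at.rank_three F p hp B hB hl

end Pool.Agent.Results.MP_16de82_co.ThreeDimensions
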